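import Mathlib

/-! SDET, general form of row U2 (helper41): any field, positive weights on the variables, arbitrary
polynomials `P k` in the place of the minors. Multiples (by monomials of weight at most `l`) of
`P k (A)` do not span a larger space than the multiples of `P k (X)`, `X` the new variables. -/

open MvPolynomial Module

namespace Pool.Agent.Helper41.SD

section weights

variable {K : Type*} [Field K] {τ ρ : Type*}

/-- all exponents of `p` have weight at most `l` -/
def Wle (w : τ → ℕ) (l : ℕ) (p : MvPolynomial τ K) : Prop :=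
  ∀ s ∈ p.support, Finsupp.weight w s ≤ l

variable {w : τ → ℕ} {a b l : ℕ} {p q : MvPolynomial τ K}

lemma Wle.mono (h : Wle w a p) (hab : a ≤ b) : Wle w b p := fun s hs => (h s hs).trans hab

lemma Wle.mul (hp : Wle w a p) (hq : Wle w b q) : Wle w (a + b) (p * q) := by
  classical
  intro s hs
  obtain ⟨x, hx, y, hy, rfl⟩ := Finset.mem_add.1 (support_mul p q hs)
  rw [map_add]
  exact add_le_add (hp x hx) (hq y hy)

lemma Wle.add (hp : Wle w a p) (hq : Wle w a q) : Wle w a (p + q) := by
  classical
  intro s hs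
  rcases Finset.mem_union.1 (support_add hs) with h | h
  · exact hp s h
  · exact hq s h

lemma Wle.neg (hp : Wle w a p) : Wle w a (-p) := by
  intro s hs
  rw [support_neg] at hs
  exact hp s hs

lemma Wle.sub (hp : Wle w a p) (hq : Wle w a q) : Wle w a (p - q) := by
  rw [sub_eq_add_neg]; exact hp.add hq.neg

lemma Wle.one : Wle w 0 (1 : MvPolynomial τ K) := by
  intro s hs
  have h := support_monomial_subset (s := (0 : τ →₀ ℕ)) (a := (1 : K)) hs
  rw [Finset.mem_singleton] at h
  rw [h, map_zero]

lemma Wle.pow (hp : Wle w a p) (n : ℕ) : Wle w (n * a) (p ^ n) := by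
  induction n with
  | zero => rw [pow_zero, Nat.zero_mul]; exact Wle.one
  | succ n ih => rw [pow_succ, Nat.succ_mul]; exact ih.mul hp

lemma Wle.prod {ι : Type*} (s : Finset ι) (f : ι → MvPolynomial τ K) (d : ι → ℕ)
    (h : ∀ i ∈ s, Wle w (d i) (f i)) : Wle w (∑ i ∈ s, d i) (∏ i ∈ s, f i) := by
  classical
  induction s using Finset.induction_on with
  | empty => simpa using Wle.one
  | insert i s hi ih =>
    rw [Finset.sum_insert hi, Finset.prod_insert hi]
    exact (h i (Finset.mem_insert_self i s)).mul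
      (ih fun j hj => h j (Finset.mem_insert_of_mem hj))

lemma Wle.X (x : τ) : Wle w (w x) (X x : MvPolynomial τ K) := by
  intro s hs
  have h := support_monomial_subset (s := Finsupp.single x 1) (a := (1 : K)) hs
  rw [Finset.mem_singleton] at h
  rw [h, Finsupp.weight_apply]
  simp

lemma Wle.aeval_monomial {w' : ρ → ℕ} (f : τ → MvPolynomial ρ K)
    (hf : ∀ x, Wle w' (w x) (f x)) (u : τ →₀ ℕ) :
    Wle w' (Finsupp.weight w u) (aeval f (monomial u (1:K))) := by
  rw [MvPolynomial.aeval_monomial, map_one, one_mul, Finsupp.prod, Finsupp.weight_apply,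
    Finsupp.sum]
  exact Wle.prod _ _ _ fun x _ => (hf x).pow (u x)

/-- span of the multiples, by monomials of weight at most `l` -/
noncomputable def mulSpan {κ : Type*} (w : τ → ℕ) (l : ℕ) (f : κ → MvPolynomial τ K) :
    Submodule K (MvPolynomial τ K) :=
  Submodule.span K {p | ∃ (μ : τ →₀ ℕ) (k : κ), Finsupp.weight w μ ≤ l ∧
    p = monomial μ 1 * f k}

lemma mulSpan_mem {κ : Type*} (f : κ → MvPolynomial τ K) (g : MvPolynomial τ K)
    (hg : Wle w l g) (k : κ) : g * f k ∈ mulSpan w l f := by
  rw [g.as_sum, Finset.sum_mul]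
  refine Submodule.sum_mem _ fun v hv => ?_
  have h1 : monomial v (coeff v g) = (coeff v g) • monomial v (1:K) := by
    rw [smul_monomial, smul_eq_mul, mul_one]
  rw [h1, smul_mul_assoc]
  exact Submodule.smul_mem _ _ (Submodule.subset_span ⟨v, k, hg v hv, rfl⟩)

lemma finite_mulSpan {κ : Type*} [Finite κ] [Finite τ] (hw : ∀ x, w x ≠ 0)
    (f : κ → MvPolynomial τ K) : Module.Finite K (mulSpan w l f) := by
  apply Module.Finite.span_of_finite
  have h1 : Finite {u : τ →₀ ℕ // Finsupp.weight w u ≤ l} :=
    (Finsupp.finite_of_nat_weight_le w hw l).to_subtype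
  refine (Set.finite_range (fun x : {u : τ →₀ ℕ // Finsupp.weight w u ≤ l} × κ =>
    monomial x.1.1 (1:K) * f x.2)).subset ?_
  rintro _ ⟨u, k, hu, rfl⟩
  exact ⟨(⟨u, hu⟩, k), rfl⟩

lemma Wle_one_of_totalDegree_le (h : p.totalDegree ≤ l) : Wle (fun _ => 1) l p := by
  intro s hs
  refine le_trans (le_of_eq ?_) ((le_totalDegree hs).trans h)
  rw [Finsupp.weight_apply]
  simp

end weights

section shift

variable {K : Type*} [Field K] {σ E : Type*}

/-- degree in the new variables -/
def nw : σ ⊕ E → ℕ := Sum.elim (fun _ => 0) (fun _ => 1)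

/-- scaling of the new variables -/
noncomputable def scal (K : Type*) [Field K] (σ E : Type*) : MvPolynomial (σ ⊕ E) K →ₐ[K]
    Polynomial (MvPolynomial (σ ⊕ E) K) :=
  aeval fun x => Polynomial.C (X x) * Polynomial.X ^ nw x

lemma scal_monomial (u : (σ ⊕ E) →₀ ℕ) :
    scal K σ E (monomial u 1) = Polynomial.X ^ (Finsupp.weight nw u) *
      Polynomial.C (monomial u 1) := by
  rw [scal, aeval_monomial, map_one, one_mul, Finsupp.weight_apply]
  simp only [mul_pow, ← pow_mul, Finsupp.prod, Finsupp.sum, Finset.prod_mul_distrib,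
    smul_eq_mul]
  rw [Finset.prod_pow_eq_pow_sum, mul_comm]
  congr 1
  · congr 1
    exact Finset.sum_congr rfl fun x _ => mul_comm _ _
  · rw [monomial_eq, C_1, one_mul, Finsupp.prod, map_prod]
    simp

lemma scal_rename (f : MvPolynomial σ K) :
    scal K σ E (rename Sum.inl f) = Polynomial.C (rename Sum.inl f) := by
  have h : (scal K σ E).comp (rename Sum.inl) =
      (Polynomial.CAlgHom (R := K) (A := MvPolynomial (σ ⊕ E) K)).comp
        (rename Sum.inl : MvPolynomial σ K →ₐ[K] MvPolynomial (σ ⊕ E) K) := by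
    apply MvPolynomial.algHom_ext
    intro s
    simp [scal, nw]
  exact DFunLike.congr_fun h f

/-- the matrix `A + X`, as a substitution -/
noncomputable def shf (A : E → MvPolynomial σ K) (e : E) : MvPolynomial (σ ⊕ E) K :=
  rename Sum.inl (A e) + X (Sum.inr e)

lemma scal_shf (A : E → MvPolynomial σ K) (P : MvPolynomial E K) :
    (scal K σ E (aeval (shf A) P)).coeff 0 = rename Sum.inl (aeval A P) := by
  have h : ((Polynomial.aeval (R := MvPolynomial (σ ⊕ E) K) (0 : MvPolynomial (σ ⊕ E) K)).restrictScalars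
      K).comp ((scal K σ E).comp (aeval (shf A))) =
      (rename Sum.inl : MvPolynomial σ K →ₐ[K] MvPolynomial (σ ⊕ E) K).comp (aeval A) := by
    apply MvPolynomial.algHom_ext
    intro e
    simp only [AlgHom.comp_apply, aeval_X, shf, map_add, scal_rename]
    simp [scal, nw]
  have h2 := DFunLike.congr_fun h P
  simp only [AlgHom.comp_apply, AlgHom.restrictScalars_apply] at h2
  rw [← h2, Polynomial.coeff_zero_eq_aeval_zero]

/-- products with the values at `A` independent implies products with the values at `A + X`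
independent -/
theorem li_shift {ι : Type*} (u : ι → (σ ⊕ E) →₀ ℕ) (P : ι → MvPolynomial E K)
    (A : E → MvPolynomial σ K)
    (h : LinearIndependent K fun i => monomial (u i) (1:K) * rename Sum.inl (aeval A (P i))) :
    LinearIndependent K fun i => monomial (u i) (1:K) * aeval (shf A) (P i) := by
  classical
  rw [linearIndependent_iff'] at h ⊢
  intro s g hg
  by_contra hcon
  push Not at hcon
  obtain ⟨i1, hi1s, hi1⟩ := hcon
  obtain ⟨i0, hi0, hmin⟩ := Finset.exists_min_image (s.filter fun i => g i ≠ 0)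
    (fun i => Finsupp.weight (nw (σ := σ) (E := E)) (u i)) ⟨i1, Finset.mem_filter.2 ⟨hi1s, hi1⟩⟩
  rw [Finset.mem_filter] at hi0
  set d := Finsupp.weight (nw (σ := σ) (E := E)) (u i0) with hd
  have h1 := congrArg (fun t => (scal K σ E t).coeff d) hg
  simp only [map_sum, map_smul, map_mul, map_zero, Polynomial.coeff_zero,
    Polynomial.finsetSum_coeff, Polynomial.coeff_smul, scal_monomial] at h1
  have h2 : ∑ i ∈ s, (if Finsupp.weight (nw (σ := σ) (E := E)) (u i) = d then g i else 0) •
      (monomial (u i) (1:K) * rename Sum.inl (aeval A (P i))) = 0 := by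
    rw [← h1]
    refine Finset.sum_congr rfl fun i hi => ?_
    by_cases hgi : g i = 0
    · simp [hgi]
    · have hle : d ≤ Finsupp.weight (nw (σ := σ) (E := E)) (u i) :=
        hmin i (Finset.mem_filter.2 ⟨hi, hgi⟩)
      rw [mul_assoc, Polynomial.coeff_X_pow_mul']
      by_cases heq : Finsupp.weight (nw (σ := σ) (E := E)) (u i) = d
      · rw [if_pos heq, if_pos heq.le, heq, Nat.sub_self, Polynomial.coeff_C_mul, scal_shf]
      · rw [if_neg heq, if_neg (fun hh => heq (le_antisymm hh hle)), zero_smul, smul_zero]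
  have h3 := h s _ h2 i0 hi0.1
  rw [if_pos rfl] at h3
  exact hi0.2 h3

end shift

section main

variable {K : Type*} [Field K] {σ E κ : Type*}

/-- the substitution `X ↦ X + A` -/
noncomputable def tr (A : E → MvPolynomial σ K) : σ ⊕ E → MvPolynomial (σ ⊕ E) K :=
  Sum.elim (fun s => X (Sum.inl s)) (shf A)

/-- the inverse substitution -/
noncomputable def tr' (A : E → MvPolynomial σ K) : σ ⊕ E → MvPolynomial (σ ⊕ E) K :=
  Sum.elim (fun s => X (Sum.inl s)) (fun e => X (Sum.inr e) - rename Sum.inl (A e))

lemma tr_rename (A : E → MvPolynomial σ K) (f : MvPolynomial σ K) :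
    aeval (tr A) (rename Sum.inl f) = rename Sum.inl f := by
  have h : (aeval (tr A)).comp (rename Sum.inl) = (rename Sum.inl :
      MvPolynomial σ K →ₐ[K] MvPolynomial (σ ⊕ E) K) := by
    apply MvPolynomial.algHom_ext
    intro s
    simp [tr]
  exact DFunLike.congr_fun h f

lemma tr_tr' (A : E → MvPolynomial σ K) (f : MvPolynomial (σ ⊕ E) K) :
    aeval (tr A) (aeval (tr' A) f) = f := by
  have h : (aeval (tr A)).comp (aeval (tr' A)) = AlgHom.id K (MvPolynomial (σ ⊕ E) K) := by
    apply MvPolynomial.algHom_ext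
    rintro (s | e)
    · simp [tr, tr']
    · simp only [AlgHom.comp_apply, aeval_X, tr', Sum.elim_inr, map_sub, AlgHom.id_apply,
        tr_rename]
      simp [tr, shf]
  exact DFunLike.congr_fun h f

lemma tr_rename_inr (A : E → MvPolynomial σ K) (P : MvPolynomial E K) :
    aeval (tr A) (rename Sum.inr P) = aeval (shf A) P := by
  rw [aeval_rename]
  rfl

/-- General form of row U2. -/
theorem finrank_mulSpan_le [Finite σ] [Finite E] [Finite κ] (w : σ ⊕ E → ℕ) (hw : ∀ x, w x ≠ 0)
    (A : E → MvPolynomial σ K) (hA : ∀ e, Wle (fun s => w (Sum.inl s)) (w (Sum.inr e)) (A e))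
    (P : κ → MvPolynomial E K) (l : ℕ) :
    finrank K (mulSpan w l fun k => rename (Sum.inl : σ → σ ⊕ E) (aeval A (P k))) ≤
      finrank K (mulSpan w l fun k => rename (Sum.inr : E → σ ⊕ E) (P k)) := by
  classical
  have hfin := finite_mulSpan (K := K) (l := l) hw
    (fun k : κ => rename (Sum.inl : σ → σ ⊕ E) (aeval A (P k)))
  have hfin2 := finite_mulSpan (K := K) (l := l) hw
    (fun k : κ => rename (Sum.inr : E → σ ⊕ E) (P k))
  rw [mulSpan] at hfin
  obtain ⟨f, hfs, hsp, hli⟩ := Submodule.exists_fun_fin_finrank_span_eq K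
    {p | ∃ (μ : (σ ⊕ E) →₀ ℕ) (k : κ), Finsupp.weight w μ ≤ l ∧
      p = monomial μ 1 * rename (Sum.inl : σ → σ ⊕ E) (aeval A (P k))}
  choose μ k hμ hf using hfs
  have hAr : ∀ e, Wle w (w (Sum.inr e)) (rename (Sum.inl : σ → σ ⊕ E) (A e)) := by
    intro e s hs
    rw [support_rename_of_injective Sum.inl_injective] at hs
    obtain ⟨t, ht, rfl⟩ := Finset.mem_image.1 hs
    have h1 := hA e t ht
    refine le_of_eq_of_le ?_ h1
    rw [Finsupp.weight_apply, Finsupp.weight_apply]
    rw [Finsupp.sum_mapDomain_index (by simp) (by intros; simp [add_mul])]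
  have hli' : LinearIndependent K fun i => monomial (μ i) (1:K) * aeval (shf A) (P (k i)) := by
    apply li_shift
    have : (fun i => monomial (μ i) (1:K) * rename (Sum.inl : σ → σ ⊕ E)
        (aeval A (P (k i)))) = f := by
      funext i; rw [hf i]
    rw [this]; exact hli
  have hsub : Submodule.span K (Set.range fun i => monomial (μ i) (1:K) *
      aeval (shf A) (P (k i))) ≤
      (mulSpan w l fun k => rename (Sum.inr : E → σ ⊕ E) (P k)).map
        (aeval (tr A)).toLinearMap := by
    rw [Submodule.span_le]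
    rintro _ ⟨i, rfl⟩
    simp only [SetLike.mem_coe, Submodule.mem_map]
    refine ⟨aeval (tr' A) (monomial (μ i) (1:K)) * rename Sum.inr (P (k i)), ?_, ?_⟩
    · refine mulSpan_mem (fun k : κ => rename (Sum.inr : E → σ ⊕ E) (P k)) _ ?_ (k i)
      refine (Wle.aeval_monomial (w := w) _ (fun x => ?_) (μ i)).mono (hμ i)
      rcases x with s | e
      · exact Wle.X _
      · exact (Wle.X _).sub (hAr e)
    · rw [AlgHom.toLinearMap_apply, map_mul, tr_tr', tr_rename_inr]
  calc finrank K (mulSpan w l fun k => rename (Sum.inl : σ → σ ⊕ E) (aeval A (P k)))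
      = finrank K (Submodule.span K (Set.range fun i => monomial (μ i) (1:K) *
      aeval (shf A) (P (k i)))) := by
        rw [finrank_span_eq_card hli', Fintype.card_fin, mulSpan]
    _ ≤ finrank K ((mulSpan w l fun k => rename (Sum.inr : E → σ ⊕ E) (P k)).map
        (aeval (tr A)).toLinearMap) := by
        have : Module.Finite K ((mulSpan w l fun k => rename (Sum.inr : E → σ ⊕ E) (P k)).map
          (aeval (tr A)).toLinearMap) := inferInstance
        exact Submodule.finrank_mono hsub
    _ ≤ _ := Submodule.finrank_map_le _ _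

end main

end Pool.Agent.Helper41.SD
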