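import Pool.Agent.Helper97.PF.Basic

/-! Every determinant is a Pfaffian (helper41): `Pf [[0, B], [-B^t, 0]] = ± det B`, and the sign can be
absorbed in the first row. -/

namespace Pool.Agent.Helper41.SD

open Pool.PF

variable {R : Type*} [CommRing R] {ι κ : Type*}

lemma se_map (f : ι → κ) (F : κ → List κ → R) (l : List ι) :
    se F (l.map f) = se (fun y l' => F (f y) (l'.map f)) l := by
  induction l generalizing F with
  | nil => rfl
  | cons y l ih => rw [List.map_cons, se_cons, se_cons, ih]; rfl

lemma pfk_map (f : ι → κ) (a : κ → κ → R) (k : ℕ) (l : List ι) :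
    pfk a k (l.map f) = pfk (fun i j => a (f i) (f j)) k l := by
  induction k generalizing l with
  | zero => cases l <;> rfl
  | succ k ih =>
    cases l with
    | nil => rfl
    | cons x l =>
      rw [List.map_cons, pfk_succ_cons, pfk_succ_cons, se_map]
      congr 1
      ext y l'
      rw [ih]

lemma se_append_of_zero (F : ι → List ι → R) (l₁ l₂ : List ι)
    (h : ∀ y ∈ l₁, ∀ l, F y l = 0) :
    se F (l₁ ++ l₂) = (-1) ^ l₁.length * se (fun y l' => F y (l₁ ++ l')) l₂ := by
  induction l₁ generalizing F with
  | nil => simp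
  | cons x l₁ ih =>
    rw [List.cons_append, se_cons, h x (by simp), ih, List.length_cons, pow_succ]
    · simp only [List.cons_append]; ring
    · intro y hy l
      exact h y (by simp [hy]) _

lemma se_ofFn' {k : ℕ} (F : ι → List ι → R) (c : Fin (k + 1) → ι) :
    se F (List.ofFn c) = ∑ r : Fin (k + 1), (-1) ^ (r : ℕ) *
      F (c r) (List.ofFn fun i => c (r.succAbove i)) := by
  induction k generalizing F with
  | zero => simp [se_cons]
  | succ k ih =>
    rw [List.ofFn_succ, se_cons, ih]
    conv_rhs => rw [Fin.sum_univ_succ]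
    simp only [Fin.val_zero, pow_zero, one_mul, Fin.val_succ, pow_succ, Fin.zero_succAbove]
    rw [sub_eq_add_neg]
    congr 1
    rw [← Finset.sum_neg_distrib]
    refine Finset.sum_congr rfl fun r _ => ?_
    have : (List.ofFn fun i : Fin (k + 1) => c (r.succ.succAbove i)) =
        c 0 :: List.ofFn fun i : Fin k => c (r.succAbove i).succ := by
      rw [List.ofFn_succ]
      simp [Fin.succ_succAbove_succ]
    rw [this]
    ring

/-- the block matrix `[[0, B], [-B^t, 0]]` -/
def bl {m n : Type*} (B : m → n → R) : m ⊕ n → m ⊕ n → R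
  | Sum.inl i, Sum.inr j => B i j
  | Sum.inr j, Sum.inl i => - B i j
  | Sum.inl _, Sum.inl _ => 0
  | Sum.inr _, Sum.inr _ => 0

lemma bl_skew {m n : Type*} (B : m → n → R) (x y : m ⊕ n) : bl B x y = - bl B y x := by
  rcases x with x | x <;> rcases y with y | y <;> simp [bl]

lemma bl_diag {m n : Type*} (B : m → n → R) (x : m ⊕ n) : bl B x x = 0 := by
  rcases x with x | x <;> rfl

/-- the Pfaffian of the block matrix -/
theorem pfk_bl {m n : Type*} (B : Matrix m n R) (k : ℕ) (r : Fin k → m) (c : Fin k → n) :
    pfk (bl B) k (List.ofFn (fun i => Sum.inl (r i)) ++ List.ofFn (fun i => Sum.inr (c i))) =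
      (-1) ^ (k * (k - 1) / 2) * (B.submatrix r c).det := by
  induction k with
  | zero => simp
  | succ k ih =>
    rw [List.ofFn_succ, List.cons_append, pfk_succ_cons, se_append_of_zero, List.length_ofFn,
      se_ofFn', Matrix.det_succ_row_zero]
    · have hk : (k + 1) * (k + 1 - 1) / 2 = k + k * (k - 1) / 2 := by
        rw [Nat.add_sub_cancel]
        have h1 := Finset.sum_range_id k
        have h2 := Finset.sum_range_id (k + 1)
        rw [Finset.sum_range_succ, h1, Nat.add_sub_cancel] at h2
        omega
      rw [hk, pow_add, mul_assoc, Finset.mul_sum, Finset.mul_sum, Finset.mul_sum]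
      refine Finset.sum_congr rfl fun j _ => ?_
      rw [ih]
      simp only [bl, Matrix.submatrix_apply, Matrix.submatrix_submatrix]
      have e1 : (B.submatrix (fun i => r i.succ) fun i => c (j.succAbove i)) =
          B.submatrix (r ∘ Fin.succ) (c ∘ j.succAbove) := rfl
      rw [e1]
      ring
    · intro y hy l
      obtain ⟨i, rfl⟩ := (List.mem_ofFn' _ _).1 hy
      simp [bl]

lemma bl_cases {m n : Type*} (B A : m → n → R) (h : ∀ p q, B p q = A p q ∨ B p q = - A p q)
    (x y : m ⊕ n) : bl B x y = 0 ∨ ∃ p q, bl B x y = A p q ∨ bl B x y = - A p q := by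
  rcases x with x | x <;> rcases y with y | y
  · exact Or.inl rfl
  · exact Or.inr ⟨x, y, h x y⟩
  · refine Or.inr ⟨y, x, ?_⟩
    rcases h y x with h | h
    · right; simp only [bl]; rw [h]
    · left; simp only [bl]; rw [h, neg_neg]
  · exact Or.inl rfl

/-- Every determinant is a Pfaffian of a skew matrix of twice the size whose entries are, up to
sign, entries of the given matrix or zero. -/
theorem exists_pfk_eq_det {s : ℕ} (A : Matrix (Fin s) (Fin s) R) :
    ∃ a : Fin (2 * s) → Fin (2 * s) → R, (∀ i j, a i j = - a j i) ∧ (∀ i, a i i = 0) ∧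
      (∀ i j, a i j = 0 ∨ ∃ p q, a i j = A p q ∨ a i j = - A p q) ∧
      pfk a s (List.finRange (2 * s)) = A.det := by
  classical
  set e : R := (-1) ^ (s * (s - 1) / 2) with he
  have hee : e = 1 ∨ e = -1 := neg_one_pow_eq_or R _
  have hee2 : e * e = 1 := by rcases hee with h | h <;> rw [h] <;> ring
  set d : Fin s → R := fun i => if (i : ℕ) = 0 then e else 1 with hd
  set B : Matrix (Fin s) (Fin s) R := Matrix.diagonal d * A with hB
  have hprod : ∏ i, d i = e := by
    cases s with
    | zero => simp [he]
    | succ s =>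
      rw [Fin.prod_univ_succ]
      simp [hd]
  have hdet : B.det = e * A.det := by
    rw [hB, Matrix.det_mul, Matrix.det_diagonal, hprod]
  have hBe : ∀ p q, B p q = A p q ∨ B p q = - A p q := by
    intro p q
    rw [hB, Matrix.diagonal_mul]
    simp only [hd]
    split_ifs
    · rcases hee with h | h <;> rw [h]
      · left; ring
      · right; ring
    · left; ring
  set f : Fin (2 * s) → Fin s ⊕ Fin s := fun i =>
    finSumFinEquiv.symm (Fin.cast (two_mul s) i) with hf
  have hlist : (List.finRange (2 * s)).map f =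
      List.ofFn (fun i : Fin s => (Sum.inl i : Fin s ⊕ Fin s)) ++
        List.ofFn (fun i : Fin s => (Sum.inr i : Fin s ⊕ Fin s)) := by
    rw [← List.ofFn_eq_map, List.ofFn_congr (two_mul s), List.ofFn_add]
    congr 1
    · congr 1
      funext i
      simp only [hf]
      rw [Fin.cast_cast, Fin.cast_refl]
      exact finSumFinEquiv_symm_apply_castAdd i
    · congr 1
      funext i
      simp only [hf]
      rw [Fin.cast_cast, Fin.cast_refl]
      exact finSumFinEquiv_symm_apply_natAdd i
  refine ⟨fun i j => bl (B : Fin s → Fin s → R) (f i) (f j), fun i j => bl_skew _ _ _,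
    fun i => bl_diag _ _, fun i j => ?_, ?_⟩
  · exact bl_cases B A hBe (f i) (f j)
  · rw [← pfk_map f (bl (B : Fin s → Fin s → R)), hlist, pfk_bl B s (fun i => i) (fun i => i)]
    have : B.submatrix (fun i => i) (fun i => i) = B := rfl
    rw [this, hdet, ← he, ← mul_assoc, hee2, one_mul]

end Pool.Agent.Helper41.SD
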