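import Pool.Agent.Helper55.SD.RODefs
import Pool.Agent.Helper67.SDet.Red

/-!
# RO3: the reduction to the product of the sparse blocks

A permanent of size `n` whose only variable cells are the `u`-cells of `2 D` sparse blocks and the
corners of `D` superblocks; derivatives in one corner entry per superblock.
-/

set_option autoImplicit false

namespace Pool.Agent.Helper41.SD

open MvPolynomial Finset Matrix Pool.SDL Pool.Agent.SDet
open scoped BigOperators

universe u

/-! ### special rows -/

section gp

/-- The remaining rows are as many as the columns. -/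
noncomputable def gC (N a : ℕ) (k : Fin (a + 1)) :
    GC N a ≃ {i : GR N a // i ≠ Sum.inr (Sum.inr k)} :=
  Fintype.equivOfCardEq (by
    rw [Fintype.card_subtype_compl]
    simp [GC, GR]
    omega)

/-- The special row, seen as an additional row. -/
noncomputable def gK (N a : ℕ) (k : Fin (a + 1)) : Option (GC N a) ≃ GR N a :=
  (Equiv.optionCongr (gC N a k)).trans (Equiv.optionSubtypeNe (Sum.inr (Sum.inr k)))

theorem gK_none (N a : ℕ) (k : Fin (a + 1)) : gK N a k none = Sum.inr (Sum.inr k) := by
  simp [gK]

theorem gK_some (N a : ℕ) (k : Fin (a + 1)) (i) : gK N a k (some i) = (gC N a k i).1 := by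
  simp [gK]

theorem gp_eq {K : Type u} [Field K] (N a : ℕ) (k : Fin (a + 1)) :
    gp K N a k = (Matrix.of fun (i j : GC N a) => gad K N a (gK N a k (some i)) j).permanent := by
  rw [gp, rper_eq (gC N a k)]
  simp only [gK_some]

end gp

/-! ### the cells -/

section cells

/-- The index set of the rows and columns. -/
abbrev IdxR (D N a k0 : ℕ) : Type := ((GR N a ⊕ GC N a) × Fin D) ⊕ Fin k0

/-- The position of a variable cell. -/
def cl {D N a : ℕ} (k0 : ℕ) : PC D N a → IdxR D N a k0 × IdxR D N a k0
  | Sum.inl (Sum.inl b, j) => (Sum.inl (Sum.inl (Sum.inl j), b), Sum.inl (Sum.inr (Sum.inl j), b))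
  | Sum.inl (Sum.inr b, j) => (Sum.inl (Sum.inr (Sum.inl j), b), Sum.inl (Sum.inl (Sum.inl j), b))
  | Sum.inr (b, (i, l)) => (Sum.inl (Sum.inl (Sum.inr (Sum.inr i)), b),
      Sum.inl (Sum.inl (Sum.inr (Sum.inr l)), b))

/-- The variable cell at a position. -/
def oc {D N a k0 : ℕ} : IdxR D N a k0 → IdxR D N a k0 → Option (PC D N a)
  | Sum.inl (Sum.inl (Sum.inl j), b), Sum.inl (Sum.inr (Sum.inl j'), b') =>
      if b = b' ∧ j = j' then some (Sum.inl (Sum.inl b, j)) else none
  | Sum.inl (Sum.inr (Sum.inl j), b), Sum.inl (Sum.inl (Sum.inl j'), b') =>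
      if b = b' ∧ j = j' then some (Sum.inl (Sum.inr b, j)) else none
  | Sum.inl (Sum.inl (Sum.inr (Sum.inr i)), b), Sum.inl (Sum.inl (Sum.inr (Sum.inr l)), b') =>
      if b = b' then some (Sum.inr (b, (i, l))) else none
  | _, _ => none

theorem oc_cl {D N a k0 : ℕ} (e : PC D N a) : oc (cl k0 e).1 (cl k0 e).2 = some e := by
  rcases e with ⟨b | b, j⟩ | ⟨b, i, l⟩ <;> simp [cl, oc]

theorem cl_of_oc {D N a k0 : ℕ} {x y : IdxR D N a k0} {e : PC D N a} (h : oc x y = some e) :
    cl k0 e = (x, y) := by
  unfold oc at h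
  split at h
  · split_ifs at h with h1
    obtain ⟨rfl, rfl⟩ := h1
    obtain rfl := Option.some.inj h
    rfl
  · split_ifs at h with h1
    obtain ⟨rfl, rfl⟩ := h1
    obtain rfl := Option.some.inj h
    rfl
  · split_ifs at h with h1
    subst h1
    obtain rfl := Option.some.inj h
    rfl
  · exact absurd h (by simp)

theorem cl_iff {D N a k0 : ℕ} {x y : IdxR D N a k0} {e : PC D N a} :
    cl k0 e = (x, y) ↔ oc x y = some e := by
  constructor
  · intro h
    have h1 := oc_cl (k0 := k0) e
    rw [h] at h1
    exact h1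
  · exact cl_of_oc

theorem sum_cl {D N a k0 : ℕ} {R : Type*} [AddCommMonoid R] (x y : IdxR D N a k0)
    (f : PC D N a → R) :
    ∑ e ∈ univ.filter (fun e => cl k0 e = (x, y)), f e = (oc x y).elim 0 f := by
  rcases h : oc x y with _ | e0
  · rw [Finset.filter_false_of_mem, Finset.sum_empty]
    · rfl
    · intro e _ he
      rw [cl_iff, h] at he
      exact absurd he (by simp)
  · have h1 : univ.filter (fun e => cl k0 e = (x, y)) = {e0} := by
      ext e
      rw [Finset.mem_filter, Finset.mem_singleton, cl_iff, h]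
      constructor
      · rintro ⟨_, h2⟩
        exact (Option.some.inj h2).symm
      · rintro rfl
        exact ⟨Finset.mem_univ _, rfl⟩
    rw [h1, Finset.sum_singleton]
    rfl

end cells

/-! ### the substitutions -/

section subst

variable (K : Type u) [Field K] (D N a : ℕ)

/-- The tall blocks. -/
noncomputable def gT (b : Fin D) : Matrix (GR N a) (GC N a)
    (MvPolynomial ((Fin D ⊕ Fin D) × Option (Fin N)) K) :=
  Matrix.of fun i j => rename (fun v => (Sum.inl b, v)) (gad K N a i j)

/-- The wide blocks. -/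
noncomputable def gW (b : Fin D) : Matrix (GC N a) (GR N a)
    (MvPolynomial ((Fin D ⊕ Fin D) × Option (Fin N)) K) :=
  Matrix.of fun i j => rename (fun v => (Sum.inr b, v)) (gad K N a j i)

/-- The substitution for the choice `k` of the special rows and columns. -/
noncomputable def ph {D N a : ℕ} (k : (Fin D ⊕ Fin D) → Fin (a + 1)) :
    PC D N a → MvPolynomial (((Fin D ⊕ Fin D) × Option (Fin N)) ⊕ Fin D) K
  | Sum.inl (b, j) => X (Sum.inl (b, some j))
  | Sum.inr (b, (i, l)) => if i = k (Sum.inl b) ∧ l = k (Sum.inr b) then X (Sum.inr b) else 0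

/-- The substitution with `0` in the corners. -/
noncomputable def ph0 {D N a : ℕ} :
    PC D N a → MvPolynomial ((Fin D ⊕ Fin D) × Option (Fin N)) K
  | Sum.inl (b, j) => X (b, some j)
  | Sum.inr _ => 0

variable {K D N a}

theorem ph_totalDegree (k : (Fin D ⊕ Fin D) → Fin (a + 1)) (e : PC D N a) :
    (ph K k e).totalDegree ≤ 1 := by
  rcases e with ⟨b, j⟩ | ⟨b, i, l⟩
  · exact (totalDegree_X (R := K) _).le
  · simp only [ph]
    split_ifs
    · exact (totalDegree_X (R := K) _).le
    · simp

theorem ph0_totalDegree (e : PC D N a) : (ph0 K e).totalDegree ≤ 1 := by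
  rcases e with ⟨b, j⟩ | ⟨b, i, l⟩
  · exact (totalDegree_X (R := K) _).le
  · simp [ph0]

theorem eps_ph (k : (Fin D ⊕ Fin D) → Fin (a + 1)) (e : PC D N a) :
    eps K ((Fin D ⊕ Fin D) × Option (Fin N)) D (ph K k e) = ph0 K e := by
  rcases e with ⟨b, j⟩ | ⟨b, i, l⟩
  · simp [ph, ph0, eps]
  · simp only [ph, ph0]
    split_ifs
    · simp [eps]
    · simp

/-- The constant part of the matrix. -/
noncomputable def cst (K : Type u) [Field K] {D N a k0 : ℕ} (x y : IdxR D N a k0) : K :=
  constantCoeff (big0 (k := k0) (gT K D N a) (gW K D N a) x y)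

theorem oc_none {k0 : ℕ} (x y : IdxR D N a k0) (h : ∀ e, cl k0 e ≠ (x, y)) : oc x y = none := by
  by_contra h1
  obtain ⟨e, he⟩ := Option.ne_none_iff_exists'.1 h1
  exact h e (cl_of_oc he)

theorem entry_eq {k0 : ℕ} (k : (Fin D ⊕ Fin D) → Fin (a + 1)) (x y : IdxR D N a k0) :
    C (cst K x y) + (oc x y).elim 0 (ph K k) =
      bigX (k := k0) (fun b => gK N a (k (Sum.inl b)) none) (fun b => gK N a (k (Sum.inr b)) none)
        (gT K D N a) (gW K D N a) x y := by
  rcases x with ⟨x, b⟩ | x
  · rcases y with ⟨y, b'⟩ | y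
    · by_cases hb : b = b'
      · subst hb
        simp only [cst, bigX, big0, bigM, Matrix.fromBlocks_apply₁₁, Matrix.blockDiagonal_apply_eq,
          pairM, gK_none]
        rcases x with i | i <;> rcases y with j | j
        · simp only [Matrix.fromBlocks_apply₁₁, Matrix.zero_apply, map_zero, zero_add,
            Matrix.of_apply]
          rcases i with i | i | i <;> rcases j with j | j | j <;> simp [oc, ph]
        · simp only [Matrix.fromBlocks_apply₁₂, gT, Matrix.of_apply, Matrix.map_apply,
            constantCoeff_rename]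
          rcases i with i | i | i <;> rcases j with j | j | j <;> simp only [oc, gad]
          · by_cases hij : i = j
            · subst hij
              simp [ph]
            · simp [hij, Ne.symm hij]
          all_goals simp
        · simp only [Matrix.fromBlocks_apply₂₁, gW, Matrix.of_apply, Matrix.map_apply,
            constantCoeff_rename]
          rcases i with i | i | i <;> rcases j with j | j | j <;> simp only [oc, gad]
          · by_cases hij : i = j
            · subst hij
              simp [ph]
            · simp [hij]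
          all_goals simp
        · simp only [Matrix.fromBlocks_apply₂₂, Matrix.zero_apply, map_zero, zero_add]
          rcases i with i | i | i <;> rcases j with j | j | j <;> simp [oc]
      · rw [oc_none]
        · simp [cst, bigX, big0, bigM, Matrix.blockDiagonal_apply_ne _ _ _ hb]
        · rintro (⟨c | c, e⟩ | ⟨c, e⟩) h <;> simp only [cl, Prod.mk.injEq, Sum.inl.injEq] at h <;>
          exact hb (h.1.2.symm.trans h.2.2)
    · rw [oc_none]
      · simp [cst, bigX, big0, bigM]
      · rintro (⟨c | c, e⟩ | ⟨c, e⟩) h <;> simp [cl] at h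
  · rw [oc_none]
    · rcases y with ⟨y, b'⟩ | y
      · simp [cst, bigX, big0, bigM]
      · simp [cst, bigX, big0, bigM, Matrix.one_apply]
    · rintro (⟨c | c, e⟩ | ⟨c, e⟩) h <;> simp [cl] at h

/-- The functional of the choice `k`. -/
noncomputable def HH (K : Type u) [Field K] {D N a : ℕ} (k : (Fin D ⊕ Fin D) → Fin (a + 1)) :
    MvPolynomial (PC D N a) K →ₗ[K] MvPolynomial ((Fin D ⊕ Fin D) × Option (Fin N)) K :=
  (eps K ((Fin D ⊕ Fin D) × Option (Fin N)) D).toLinearMap ∘ₗ iter (List.finRange D) ∘ₗ
    (aeval (ph K k)).toLinearMap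

theorem HH_det {M : ℕ} (k : (Fin D ⊕ Fin D) → Fin (a + 1))
    (L : Matrix (Fin M) (Fin M) (MvPolynomial (PC D N a) K))
    (hL : ∀ i j, (L i j).totalDegree ≤ 1) :
    HH K k L.det ∈ Mn K (L.map (aeval (ph0 K (D := D) (N := N) (a := a)) :
      MvPolynomial (PC D N a) K →ₐ[K] _)) (M - D) := by
  have hcomp : ∀ p : MvPolynomial (PC D N a) K, eps K ((Fin D ⊕ Fin D) × Option (Fin N)) D
      (aeval (ph K k) p) = aeval (ph0 K) p := by
    intro p
    have h1 : (eps K ((Fin D ⊕ Fin D) × Option (Fin N)) D).comp (aeval (ph K (N := N) k)) =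
        aeval (ph0 K) := by
      refine MvPolynomial.algHom_ext fun q => ?_
      rw [AlgHom.comp_apply, aeval_X, aeval_X]
      exact eps_ph k q
    exact congrArg (fun φ => φ p) h1
  have h6 : iter (List.finRange D) (aeval (ph K k) L.det) ∈
      Mn K (L.map (aeval (ph K k))) (M - D) := by
    have h7 := iter_mem (List.finRange D) (L.map (aeval (ph K k))) (fun i j =>
      (totalDegree_aeval_le' (ph K k) (ph_totalDegree k) _).trans (hL i j))
      (det_mem_Mn (K := K) (L.map (aeval (ph K k))))
    rw [List.length_finRange] at h7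
    rw [AlgHom.map_det]
    exact h7
  have h8 := map_Mn (eps K ((Fin D ⊕ Fin D) × Option (Fin N)) D) _ h6
  have h9 : (L.map (aeval (ph K k))).map (eps K ((Fin D ⊕ Fin D) × Option (Fin N)) D) =
      L.map (aeval (ph0 K)) := by
    ext i j
    simp only [Matrix.map_apply]
    rw [hcomp]
  rw [h9] at h8
  exact h8

theorem HH_perm {n k0 : ℕ} (E : Fin n ≃ IdxR D N a k0) (k : (Fin D ⊕ Fin D) → Fin (a + 1)) :
    HH K k (Matrix.of fun i j : Fin n => (C (cst K (E i) (E j)) +
      ∑ e ∈ univ.filter (fun e => cl k0 e = (E i, E j)), X e :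
        MvPolynomial (PC D N a) K)).permanent =
      ∏ b, rename (fun v => (b, v)) (gp K N a (k b)) := by
  have h1 : aeval (ph K k) (Matrix.of fun i j : Fin n => (C (cst K (E i) (E j)) +
      ∑ e ∈ univ.filter (fun e => cl k0 e = (E i, E j)), X e :
        MvPolynomial (PC D N a) K)).permanent =
      ((List.finRange D).map fun b => (X (Sum.inr b) :
        MvPolynomial (((Fin D ⊕ Fin D) × Option (Fin N)) ⊕ Fin D) K)).prod *
        rename Sum.inl (∏ b, rename (fun v => (b, v)) (gp K N a (k b))) := by
    have h2 : aeval (ph K k) (Matrix.of fun i j : Fin n => (C (cst K (E i) (E j)) +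
        ∑ e ∈ univ.filter (fun e => cl k0 e = (E i, E j)), X e :
          MvPolynomial (PC D N a) K)).permanent =
        ((bigX (k := k0) (fun b => gK N a (k (Sum.inl b)) none)
          (fun b => gK N a (k (Sum.inr b)) none) (gT K D N a) (gW K D N a)).submatrix
            E E).permanent := by
      rw [Matrix.permanent, Matrix.permanent, map_sum]
      refine Finset.sum_congr rfl fun σ _ => ?_
      rw [map_prod]
      refine Finset.prod_congr rfl fun i _ => ?_
      rw [Matrix.of_apply, Matrix.submatrix_apply, ← entry_eq k (E (σ i)) (E i), map_add,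
        map_sum, aeval_C, algebraMap_eq, ← sum_cl]
      congr 1
      refine Finset.sum_congr rfl fun e _ => ?_
      rw [aeval_X]
    rw [h2, perm_submatrix, perm_bigX, ← List.prod_ofFn]
    congr 1
    · simp [List.ofFn_eq_map]
    congr 1
    rw [Fintype.prod_sum_type, Finset.prod_mul_distrib]
    congr 1
    · refine Finset.prod_congr rfl fun b _ => ?_
      rw [gp_eq]
      simp [Matrix.permanent, map_sum, map_prod, gT]
    · refine Finset.prod_congr rfl fun b _ => ?_
      rw [gp_eq, ← Matrix.permanent_transpose]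
      simp [Matrix.permanent, map_sum, map_prod, gW]
  have h4 : iter (List.finRange D) (aeval (ph K k) (Matrix.of fun i j : Fin n =>
      (C (cst K (E i) (E j)) + ∑ e ∈ univ.filter (fun e => cl k0 e = (E i, E j)), X e :
        MvPolynomial (PC D N a) K)).permanent) =
      rename Sum.inl (∏ b, rename (fun v => (b, v)) (gp K N a (k b))) := by
    rw [h1]
    exact iter_prod _ (List.nodup_finRange D) _ fun b _ => pderiv_rename_inl b _
  rw [HH, LinearMap.comp_apply, LinearMap.comp_apply]
  refine Eq.trans (congrArg _ h4) ?_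
  exact eps_rename _

end subst

end Pool.Agent.Helper41.SD

namespace Pool.SDL

open MvPolynomial Finset Pool.Agent.SDet Pool.Agent.Helper41.SD
open scoped BigOperators ENNReal

/-- RO3. The substitution in the permanent, and the functionals. -/
theorem RO3 (K : Type) [Field K] {n D N a : ℕ} (hn : D * (4 * N + 2 * a + 1) ≤ n) :
    ∃ (c0 : Fin n × Fin n → K) (cell : PC D N a → Fin n × Fin n)
      (H : ((Fin D ⊕ Fin D) → Fin (a + 1)) → MvPolynomial (PC D N a) K →ₗ[K]
        MvPolynomial ((Fin D ⊕ Fin D) × Option (Fin N)) K),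
      (∀ k, H k (Matrix.of fun i j : Fin n => (C (c0 (i, j)) +
          ∑ e ∈ univ.filter (fun e => cell e = (i, j)), X e :
            MvPolynomial (PC D N a) K)).permanent =
          ∏ b, rename (fun v => (b, v)) (gp K N a (k b))) ∧
      ∀ (M : ℕ) (L : Matrix (Fin M) (Fin M) (MvPolynomial (PC D N a) K)),
        (∀ i j, (L i j).totalDegree ≤ 1) →
        ∃ L' : Matrix (Fin M) (Fin M) (MvPolynomial ((Fin D ⊕ Fin D) × Option (Fin N)) K),
          (∀ i j, (L' i j).totalDegree ≤ 1) ∧ ∀ k, H k L.det ∈ detSpan L' (M - D) := by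
  obtain ⟨k0, hk0⟩ := Nat.exists_eq_add_of_le hn
  have hcard : Fintype.card (Fin n) = Fintype.card (IdxR D N a k0) := by
    simp only [IdxR, GR, GC, Fintype.card_fin, Fintype.card_sum, Fintype.card_prod]
    rw [hk0]
    ring
  let E : Fin n ≃ IdxR D N a k0 := Fintype.equivOfCardEq hcard
  refine ⟨fun x => cst K (E x.1) (E x.2), fun e => (E.symm (cl k0 e).1, E.symm (cl k0 e).2),
    fun k => HH K k, fun k => ?_, fun M L hL => ?_⟩
  · have h1 : ∀ (i j : Fin n), (univ.filter fun e : PC D N a =>
        (E.symm (cl k0 e).1, E.symm (cl k0 e).2) = (i, j)) =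
        univ.filter fun e => cl k0 e = (E i, E j) := by
      intro i j
      refine Finset.filter_congr fun e _ => ?_
      rw [Prod.ext_iff, Prod.ext_iff]
      simp only [Equiv.symm_apply_eq]
    simp only [h1]
    exact HH_perm E k
  · refine ⟨L.map (aeval (ph0 K)), fun i j => ?_, fun k => HH_det k L hL⟩
    exact (totalDegree_aeval_le' (ph0 K) ph0_totalDegree _).trans (hL i j)

end Pool.SDL
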