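import Mathlib

/-! Row RO1 (helper41): a determinant of any size in which every variable has a coefficient matrix of
rank at most `ρ` is a constant times a determinant of size `ρ` times the number of variables. -/

open MvPolynomial Module

namespace Pool.Agent.Helper41.SD

variable {K : Type*} [Field K]

/-- rank factorisation -/
lemma rank_factor {m n : Type*} [Fintype n] [Finite m] (B : Matrix m n K) {ρ : ℕ}
    (h : B.rank ≤ ρ) : ∃ (U : Matrix m (Fin ρ) K) (V : Matrix (Fin ρ) n K), B = U * V := by
  classical
  have hr := Matrix.rank_eq_finrank_span_cols B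
  have hfin : Module.Finite K (Submodule.span K (Set.range B.col)) :=
    Module.Finite.span_of_finite K (Set.finite_range _)
  obtain ⟨f, -, hsp, -⟩ := Submodule.exists_fun_fin_finrank_span_eq K (Set.range B.col)
  set g : Fin ρ → (m → K) := fun k =>
    if h : (k : ℕ) < finrank K (Submodule.span K (Set.range B.col)) then f ⟨k, h⟩ else 0 with hg
  have hfg : Set.range f ⊆ Set.range g := by
    rintro _ ⟨k, rfl⟩
    have hk : (k : ℕ) < ρ := lt_of_lt_of_le k.2 (hr ▸ h)
    exact ⟨⟨k, hk⟩, by simp [hg]⟩
  have hmem : ∀ j, ∃ c : Fin ρ → K, ∑ k, c k • g k = B.col j := by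
    intro j
    apply (Submodule.mem_span_range_iff_exists_fun K).1
    apply Submodule.span_mono hfg
    rw [hsp]
    exact Submodule.subset_span ⟨j, rfl⟩
  choose c hc using hmem
  refine ⟨Matrix.of fun i k => g k i, Matrix.of fun k j => c j k, ?_⟩
  ext i j
  have h1 := congrFun (hc j) i
  rw [Matrix.mul_apply]
  simp only [Finset.sum_apply, Pi.smul_apply, smul_eq_mul, Matrix.col_apply] at h1
  rw [← h1]
  refine Finset.sum_congr rfl fun k _ => ?_
  simp only [Matrix.of_apply]
  ring

/-- column elimination for constant rows -/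
lemma exists_elim {m n : Type*} [Fintype m] [DecidableEq m] [Fintype n] [DecidableEq n]
    (W : Matrix m (m ⊕ n) K) : (∃ v : m → K, v ≠ 0 ∧ Matrix.vecMul v W = 0) ∨
      ∃ Q : Matrix (m ⊕ n) (m ⊕ n) K, Q.det ≠ 0 ∧ W * Q = Matrix.fromCols 1 0 := by
  classical
  by_cases hli : LinearIndependent K W.row
  · right
    set b := Basis.sumExtend hli with hb
    have hfinI : Finite (m ⊕ Basis.sumExtendIndex hli) := Module.Finite.finite_basis b
    have hI : Finite (Basis.sumExtendIndex hli) := Finite.sum_right m
    have hfI := Fintype.ofFinite (Basis.sumExtendIndex hli)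
    have hcard : Fintype.card (Basis.sumExtendIndex hli) = Fintype.card n := by
      have h1 := Module.finrank_eq_card_basis b
      rw [Module.finrank_fintype_fun_eq_card, Fintype.card_sum, Fintype.card_sum] at h1
      omega
    set e := Fintype.equivOfCardEq hcard
    set b' := b.reindex (Equiv.sumCongr (Equiv.refl m) e) with hb'
    have hbl : ∀ i, b' (Sum.inl i) = W i := by
      intro i
      have h1 : b' (Sum.inl i) = b (Sum.inl i) := by
        rw [hb', Basis.reindex_apply]; rfl
      rw [h1, hb]
      simp only [Basis.sumExtend, Basis.reindex_apply]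
      simp
      rfl
    set T : Matrix (m ⊕ n) (m ⊕ n) K := Matrix.of fun i j => b' i j with hT
    have hTt : T = Matrix.transpose ((Pi.basisFun K (m ⊕ n)).toMatrix b') := by
      ext i j
      simp [hT, Basis.toMatrix_apply]
    have hdet : T.det ≠ 0 := by
      rw [hTt, Matrix.det_transpose]
      have h2 := Basis.toMatrix_mul_toMatrix_flip (Pi.basisFun K (m ⊕ n)) b'
      intro h0
      have h3 := congrArg Matrix.det h2
      rw [Matrix.det_mul, h0, zero_mul, Matrix.det_one] at h3
      exact zero_ne_one h3
    have hunit : IsUnit T.det := isUnit_iff_ne_zero.2 hdet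
    refine ⟨T⁻¹, ?_, ?_⟩
    · rw [Matrix.det_nonsing_inv]
      exact (hunit.ringInverse).ne_zero
    · have h4 : T * T⁻¹ = 1 := Matrix.mul_nonsing_inv T hunit
      ext i j
      have h5 := congrFun (congrFun h4 (Sum.inl i)) j
      have h6 : (T * T⁻¹) (Sum.inl i) j = (W * T⁻¹) i j := by
        rw [Matrix.mul_apply, Matrix.mul_apply]
        refine Finset.sum_congr rfl fun x _ => ?_
        rw [hT, Matrix.of_apply, hbl]
      rw [← h6, h5]
      rcases j with j | j
      · simp [Matrix.fromCols, Matrix.one_apply]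
      · simp [Matrix.fromCols]
  · left
    rw [Fintype.not_linearIndependent_iff] at hli
    obtain ⟨v, hv, i, hi⟩ := hli
    refine ⟨v, fun h => hi (by rw [h]; rfl), ?_⟩
    rw [← hv]
    ext j
    simp [Matrix.vecMul, dotProduct]

section main

variable {P : Type*} [Fintype P] [DecidableEq P]

/-- RO1: reduction of the size. -/
theorem det_low_rank {m ρ : ℕ} (A₀ : Matrix (Fin m) (Fin m) K)
    (B : P → Matrix (Fin m) (Fin m) K) (hB : ∀ e, (B e).rank ≤ ρ) :
    ∃ (c : K) (L : Matrix (P × Fin ρ) (P × Fin ρ) (MvPolynomial P K)),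
      (∀ i j, (L i j).totalDegree ≤ 1) ∧
      (A₀.map (C : K → MvPolynomial P K) +
        ∑ e, (X e : MvPolynomial P K) • (B e).map (C : K → MvPolynomial P K)).det =
        C c * L.det := by
  classical
  choose U V hUV using fun e => rank_factor (B e) (hB e)
  set Ua : Matrix (Fin m) (P × Fin ρ) K := Matrix.of fun i x => U x.1 i x.2 with hUa
  set Va : Matrix (P × Fin ρ) (Fin m) K := Matrix.of fun x j => V x.1 x.2 j with hVa
  set Y : Matrix (P × Fin ρ) (P × Fin ρ) (MvPolynomial P K) :=
    Matrix.diagonal fun x => X x.1 with hY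
  set φ : K →+* MvPolynomial P K := C with hφ
  have hschur : A₀.map φ + ∑ e, (X e : MvPolynomial P K) • (B e).map φ =
      A₀.map φ - (-(Ua.map φ)) * (Y * Va.map φ) := by
    rw [Matrix.neg_mul, sub_neg_eq_add]
    congr 1
    ext1 i j
    rw [Matrix.sum_apply, Matrix.mul_apply, Fintype.sum_prod_type]
    refine Finset.sum_congr rfl fun e _ => ?_
    rw [Matrix.smul_apply, Matrix.map_apply, hUV e, Matrix.mul_apply, map_sum, smul_eq_mul,
      Finset.mul_sum]
    refine Finset.sum_congr rfl fun k _ => ?_
    rw [hY, Matrix.diagonal_mul, Matrix.map_apply, Matrix.map_apply, hUa, hVa, Matrix.of_apply,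
      Matrix.of_apply, map_mul]
    ring
  have hdet : (A₀.map φ + ∑ e, (X e : MvPolynomial P K) • (B e).map φ).det =
      (Matrix.fromBlocks (A₀.map φ) (-(Ua.map φ)) (Y * Va.map φ) 1).det := by
    rw [hschur, Matrix.det_fromBlocks_one₂₂]
  set W : Matrix (Fin m) (Fin m ⊕ (P × Fin ρ)) K := Matrix.fromCols A₀ (-Ua) with hW
  rcases exists_elim W with ⟨v, hv, hvW⟩ | ⟨Q, hQ, hWQ⟩
  · refine ⟨0, 1, fun i j => ?_, ?_⟩
    · rw [Matrix.one_apply]
      split_ifs
      · simp
      · simp
    · rw [map_zero, zero_mul, hdet, ← Matrix.exists_vecMul_eq_zero_iff]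
      refine ⟨Sum.elim (fun i => φ (v i)) 0, ?_, ?_⟩
      · intro h0
        apply hv
        funext i
        have h1 := congrFun h0 (Sum.inl i)
        simp only [Sum.elim_inl, Pi.zero_apply, hφ] at h1
        exact C_injective P K (by rw [h1, Pi.zero_apply, map_zero])
      · have h2 : Matrix.vecMul (fun i => φ (v i)) (Matrix.fromCols (A₀.map φ) (-(Ua.map φ))) = 0 := by
          funext j
          have h3 := congrFun hvW j
          simp only [Matrix.vecMul, dotProduct, Pi.zero_apply] at h3 ⊢
          have h4 := congrArg φ h3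
          rw [map_sum, map_zero] at h4
          rw [← h4]
          refine Finset.sum_congr rfl fun i _ => ?_
          rw [map_mul]
          congr 1
          rcases j with j | j
          · simp [hW]
          · simp [hW]
        rw [Matrix.vecMul_fromBlocks]
        have h5 : ∀ j, Matrix.vecMul (fun i => φ (v i)) (A₀.map φ) j = 0 := fun j => by
          have := congrFun h2 (Sum.inl j)
          simpa [Matrix.vecMul, dotProduct] using this
        have h6 : ∀ j, Matrix.vecMul (fun i => φ (v i)) (-(Ua.map φ)) j = 0 := fun j => by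
          have := congrFun h2 (Sum.inr j)
          simpa [Matrix.vecMul, dotProduct] using this
        funext j
        rcases j with j | j
        · simp only [Sum.elim_inl, Pi.add_apply, Pi.zero_apply]
          have : Sum.elim (fun i => φ (v i)) (0 : P × Fin ρ → MvPolynomial P K) ∘ Sum.inl =
            fun i => φ (v i) := rfl
          rw [this, h5]
          have h7 : Sum.elim (fun i => φ (v i)) (0 : P × Fin ρ → MvPolynomial P K) ∘ Sum.inr =
            0 := rfl
          rw [h7, Matrix.zero_vecMul]
          simp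
        · simp only [Sum.elim_inr, Pi.add_apply, Pi.zero_apply]
          have : Sum.elim (fun i => φ (v i)) (0 : P × Fin ρ → MvPolynomial P K) ∘ Sum.inl =
            fun i => φ (v i) := rfl
          rw [this, h6]
          have h7 : Sum.elim (fun i => φ (v i)) (0 : P × Fin ρ → MvPolynomial P K) ∘ Sum.inr =
            0 := rfl
          rw [h7, Matrix.zero_vecMul]
          simp
  · set F : Matrix (P × Fin ρ) (Fin m ⊕ (P × Fin ρ)) (MvPolynomial P K) :=
      Matrix.fromCols (Y * Va.map φ) 1 with hF
    set Q' : Matrix (Fin m ⊕ (P × Fin ρ)) (Fin m ⊕ (P × Fin ρ)) (MvPolynomial P K) :=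
      Q.map φ with hQ'
    set G : Matrix (P × Fin ρ) (Fin m ⊕ (P × Fin ρ)) (MvPolynomial P K) := F * Q' with hG
    have hprod : Matrix.fromBlocks (A₀.map φ) (-(Ua.map φ)) (Y * Va.map φ) 1 * Q' =
        Matrix.fromBlocks 1 0 (G.toCols₁) (G.toCols₂) := by
      have h8 : Matrix.fromBlocks (A₀.map φ) (-(Ua.map φ)) (Y * Va.map φ) 1 =
          Matrix.fromRows (W.map φ) F := by
        ext1 i j
        rcases i with i | i <;> rcases j with j | j <;> simp [hW, hF]
      rw [h8, Matrix.fromRows_mul, ← hG]
      have h9 : W.map φ * Q' = Matrix.fromCols 1 0 := by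
        rw [hQ', ← Matrix.map_mul, hWQ]
        ext1 i j
        rcases j with j | j
        · simp [Matrix.one_apply, apply_ite]
        · simp
      rw [h9]
      ext1 i j
      rcases i with i | i <;> rcases j with j | j <;> simp [Matrix.toCols₁, Matrix.toCols₂]
    have hdet2 : (Matrix.fromBlocks (A₀.map φ) (-(Ua.map φ)) (Y * Va.map φ) 1).det * φ Q.det =
        G.toCols₂.det := by
      have h10 := congrArg Matrix.det hprod
      rw [Matrix.det_mul, Matrix.det_fromBlocks_zero₁₂, Matrix.det_one, one_mul] at h10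
      rw [← h10, hQ']
      congr 1
      rw [RingHom.map_det]
      rfl
    refine ⟨Q.det⁻¹, G.toCols₂, fun i j => ?_, ?_⟩
    · rw [Matrix.toCols₂_apply, hG, Matrix.mul_apply]
      refine totalDegree_finsetSum_le fun x _ => ?_
      refine (totalDegree_mul _ _).trans ?_
      have h11 : (Q' x (Sum.inr j)).totalDegree = 0 := totalDegree_C _
      rw [h11, add_zero]
      rcases x with x | x
      · rw [hF, Matrix.fromCols_apply_inl, hY, Matrix.diagonal_mul, Matrix.map_apply]
        refine (totalDegree_mul _ _).trans ?_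
        rw [hφ, totalDegree_C, add_zero]
        exact (totalDegree_X _).le
      · rw [hF, Matrix.fromCols_apply_inr, Matrix.one_apply]
        split_ifs
        · simp
        · simp
    · rw [hdet, ← hdet2, mul_comm _ (φ Q.det), ← mul_assoc]
      have : C Q.det⁻¹ * φ Q.det = 1 := by
        rw [hφ, ← C_mul, inv_mul_cancel₀ hQ, C_1]
      rw [this, one_mul]

/-- padding and absorption of the constant -/
lemma exists_pad_const {n : Type*} [Fintype n] [DecidableEq n] {σ : Type*} (c : K)
    (L : Matrix n n (MvPolynomial σ K)) (hL : ∀ i j, (L i j).totalDegree ≤ 1) {M : ℕ}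
    (hM : Fintype.card n ≤ M) (h1 : 1 ≤ M) :
    ∃ L' : Matrix (Fin M) (Fin M) (MvPolynomial σ K), (∀ i j, (L' i j).totalDegree ≤ 1) ∧
      C c * L.det = L'.det := by
  classical
  obtain ⟨d, rfl⟩ := Nat.exists_eq_add_of_le hM
  have hcard : Fintype.card (n ⊕ Fin d) = Fintype.card (Fin (Fintype.card n + d)) := by simp
  set e : n ⊕ Fin d ≃ Fin (Fintype.card n + d) := Fintype.equivOfCardEq hcard
  set N : Matrix (Fin (Fintype.card n + d)) (Fin (Fintype.card n + d)) (MvPolynomial σ K) :=
    (Matrix.fromBlocks L 0 0 (1 : Matrix (Fin d) (Fin d) (MvPolynomial σ K))).submatrix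
      e.symm e.symm with hN
  have hNd : ∀ i j, (N i j).totalDegree ≤ 1 := by
    intro i j
    rw [hN, Matrix.submatrix_apply]
    rcases e.symm i with x | x <;> rcases e.symm j with y | y
    · simpa using hL x y
    · simp
    · simp
    · rw [Matrix.fromBlocks_apply₂₂, Matrix.one_apply]
      split_ifs
      · simp
      · simp
  have hNdet : N.det = L.det := by
    rw [hN, Matrix.det_submatrix_equiv_self, Matrix.det_fromBlocks_zero₁₂, Matrix.det_one, mul_one]
  set i0 : Fin (Fintype.card n + d) := ⟨0, h1⟩
  refine ⟨Matrix.diagonal (fun i => if i = i0 then (C c : MvPolynomial σ K) else 1) * N,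
    fun i j => ?_, ?_⟩
  · rw [Matrix.diagonal_mul]
    refine (totalDegree_mul _ _).trans ?_
    have : (if i = i0 then (C c : MvPolynomial σ K) else 1).totalDegree = 0 := by
      split_ifs
      · exact totalDegree_C _
      · exact totalDegree_one
    rw [this, zero_add]
    exact hNd i j
  · rw [Matrix.det_mul, Matrix.det_diagonal, hNdet]
    congr 1
    rw [Finset.prod_ite_eq']
    simp

/-- RO1, padded form: size exactly `M`, for every `M ≥ 1` with `|P| ρ ≤ M`. -/
theorem det_low_rank_pad {m ρ M : ℕ} (A₀ : Matrix (Fin m) (Fin m) K)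
    (B : P → Matrix (Fin m) (Fin m) K) (hB : ∀ e, (B e).rank ≤ ρ)
    (hM : Fintype.card P * ρ ≤ M) (h1 : 1 ≤ M) :
    ∃ L : Matrix (Fin M) (Fin M) (MvPolynomial P K), (∀ i j, (L i j).totalDegree ≤ 1) ∧
      (A₀.map (C : K → MvPolynomial P K) +
        ∑ e, (X e : MvPolynomial P K) • (B e).map (C : K → MvPolynomial P K)).det = L.det := by
  obtain ⟨c, L, hL, h⟩ := det_low_rank A₀ B hB
  obtain ⟨L', hL', h'⟩ := exists_pad_const c L hL (M := M) (by simpa using hM) h1
  exact ⟨L', hL', h.trans h'⟩

end main

end Pool.Agent.Helper41.SD
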