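import Mathlib

/-! SDET row M2 (helper41): semicontinuity of the rank and generic minors.
`minSpan S A l` is the span of the products (monomial of degree at most `l`) times
(minor of `A` with row and column maps in `S`). -/

open MvPolynomial Module

namespace SDet

/-- value of a polynomial under a linear functional is a polynomial function -/
lemma exists_poly_functional {K T : Type*} [Field K] [CommRing T] [Algebra K T]
    (f : T →ₗ[K] K) (q : Polynomial T) :
    ∃ P : Polynomial K, ∀ e : K, P.eval e = f (q.eval (algebraMap K T e)) := by
  induction q using Polynomial.induction_on' with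
  | add p q hp hq =>
    obtain ⟨P, hP⟩ := hp
    obtain ⟨Q, hQ⟩ := hq
    exact ⟨P + Q, fun e => by simp [hP, hQ]⟩
  | monomial n a =>
    refine ⟨Polynomial.monomial n (f a), fun e => ?_⟩
    rw [Polynomial.eval_monomial, Polynomial.eval_monomial, ← map_pow, mul_comm a,
      ← Algebra.smul_def, map_smul, smul_eq_mul, mul_comm]

/-- Lower semicontinuity of the rank of a polynomial family of vectors. -/
lemma finrank_span_le_generic {K T ι : Type*} [Field K] [Infinite K] [CommRing T] [Algebra K T]
    [Finite ι] (v : ι → Polynomial T) :
    ∃ e : K, e ≠ 0 ∧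
      finrank K (Submodule.span K (Set.range fun i => (v i).eval (0 : T))) ≤
        finrank K (Submodule.span K (Set.range fun i => (v i).eval (algebraMap K T e))) := by
  classical
  set s : Set T := Set.range fun i => (v i).eval (0 : T) with hs
  have : Module.Finite K (Submodule.span K s) := Module.Finite.span_of_finite K (Set.finite_range _)
  obtain ⟨f, hfs, -, hli⟩ := Submodule.exists_fun_fin_finrank_span_eq K s
  choose g hg using hfs
  obtain ⟨L, hL⟩ := (Finsupp.linearCombination K f).exists_leftInverse_of_injective
    (LinearMap.ker_eq_bot.2 hli)
  have hLf : ∀ k, L (f k) = Finsupp.single k 1 := by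
    intro k
    have := LinearMap.congr_fun hL (Finsupp.single k 1)
    simpa using this
  have hP : ∀ j k : Fin (finrank K (Submodule.span K s)), ∃ P : Polynomial K, ∀ e : K,
      P.eval e = L ((v (g k)).eval (algebraMap K T e)) j := fun j k =>
    exists_poly_functional ((Finsupp.lapply j).comp L) (v (g k))
  choose P hP using hP
  set D : Polynomial K := (Matrix.of P).det with hD
  have hDe : ∀ e : K, D.eval e =
      (Matrix.of fun j k => L ((v (g k)).eval (algebraMap K T e)) j).det := by
    intro e
    rw [hD, ← Polynomial.coe_evalRingHom, RingHom.map_det]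
    congr 1
    ext j k
    simp [hP]
  have hD0 : D.eval 0 = 1 := by
    rw [hDe 0]
    have : (Matrix.of fun j k => L ((v (g k)).eval (algebraMap K T 0)) j) = 1 := by
      ext j k
      have h1 : (v (g k)).eval (algebraMap K T 0) = f k := by
        rw [map_zero]; exact hg k
      rw [Matrix.of_apply, h1, hLf k, Finsupp.single_apply, Matrix.one_apply]
      by_cases h : j = k
      · subst h; simp
      · simp [h, Ne.symm h]
    rw [this, Matrix.det_one]
  have hDne : D ≠ 0 := by
    intro h; rw [h] at hD0; simp at hD0
  have hXD : Polynomial.X * D ≠ 0 := mul_ne_zero Polynomial.X_ne_zero hDne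
  obtain ⟨e, he⟩ : ∃ e : K, (Polynomial.X * D).eval e ≠ 0 := by
    by_contra hcon
    push Not at hcon
    exact hXD (Polynomial.funext (fun r => by simpa using hcon r))
  rw [Polynomial.eval_mul, Polynomial.eval_X] at he
  refine ⟨e, left_ne_zero_of_mul he, ?_⟩
  have hde := right_ne_zero_of_mul he
  rw [hDe e] at hde
  set w : Fin (finrank K (Submodule.span K s)) → T := fun k => (v (g k)).eval (algebraMap K T e)
    with hw
  have hwli : LinearIndependent K w := by
    rw [Fintype.linearIndependent_iff]
    intro c hc
    have h2 : Matrix.mulVec (Matrix.of fun j k => L ((v (g k)).eval (algebraMap K T e)) j) c = 0 := by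
      ext j
      have h3 := congrArg (fun t => L t j) hc
      simp only [map_sum, map_smul, map_zero, Finsupp.coe_zero, Pi.zero_apply,
        Finsupp.coe_finsetSum, Finset.sum_apply, Finsupp.coe_smul, Pi.smul_apply,
        smul_eq_mul] at h3
      simp only [Matrix.mulVec, dotProduct, Matrix.of_apply, Pi.zero_apply]
      rw [← h3]
      refine Finset.sum_congr rfl fun k _ => ?_
      rw [mul_comm]
    have h4 := Matrix.eq_zero_of_mulVec_eq_zero hde h2
    intro i
    rw [h4]; rfl
  have : Module.Finite K (Submodule.span K
      (Set.range fun i => (v i).eval (algebraMap K T e))) :=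
    Module.Finite.span_of_finite K (Set.finite_range _)
  have h5 : Submodule.span K (Set.range w) ≤ Submodule.span K
      (Set.range fun i => (v i).eval (algebraMap K T e)) := by
    apply Submodule.span_mono
    rintro _ ⟨k, rfl⟩
    exact ⟨g k, rfl⟩
  calc finrank K (Submodule.span K s) = Fintype.card (Fin (finrank K (Submodule.span K s))) := by
        simp
    _ = finrank K (Submodule.span K (Set.range w)) := (finrank_span_eq_card hwli).symm
    _ ≤ _ := Submodule.finrank_mono h5

end SDet
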