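import Pool.Agent.SDet.Defs
import Pool.Agent.Helper41.SDet.Semi

/-! SDET row U2 (helper41): the space of multiples (by monomials of degree at most `l`, in all
variables) of the minors of an affine matrix is not larger than for the generic matrix of new
variables. -/

open MvPolynomial Module

namespace Pool.Agent.Helper41.SD

open Pool.SDL

variable {K : Type} [Field K] {σ : Type} {m k l : ℕ}

/-- the generic matrix of new variables -/
noncomputable def gen (K : Type) [Field K] (σ : Type) (m : ℕ) :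
    Matrix (Fin m) (Fin m) (MvPolynomial (σ ⊕ (Fin m × Fin m)) K) :=
  Matrix.of fun i j => X (Sum.inr (i, j))

/-- products (monomial of degree at most `l`) times (generic minor) -/
def gset (K : Type) [Field K] (σ : Type) (m k l : ℕ) :
    Set (MvPolynomial (σ ⊕ (Fin m × Fin m)) K) :=
  {f | ∃ (μ : (σ ⊕ (Fin m × Fin m)) →₀ ℕ) (r c : Fin k → Fin m),
        μ.degree ≤ l ∧ StrictMono r ∧ StrictMono c ∧
        f = monomial μ 1 * ((gen K σ m).submatrix r c).det}


/-- total degree of a substitution by affine polynomials -/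
lemma totalDegree_aeval_monomial_le {τ ρ : Type} (f : τ → MvPolynomial ρ K)
    (hf : ∀ x, (f x).totalDegree ≤ 1) (u : τ →₀ ℕ) :
    (aeval f (monomial u (1:K))).totalDegree ≤ u.degree := by
  rw [aeval_monomial, map_one, one_mul, Finsupp.prod, Finsupp.degree_apply]
  refine (totalDegree_finsetProd _ _).trans (Finset.sum_le_sum fun x _ => ?_)
  refine (totalDegree_pow _ _).trans ?_
  calc u x * (f x).totalDegree ≤ u x * 1 := Nat.mul_le_mul_left _ (hf x)
    _ = u x := mul_one _

/-- The matrix `A + e X` with `e` a formal variable, minor times monomial. -/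
noncomputable def fam (A : Matrix (Fin m) (Fin m) (MvPolynomial σ K))
    (u : (σ ⊕ (Fin m × Fin m)) →₀ ℕ) (r c : Fin k → Fin m) :
    Polynomial (MvPolynomial (σ ⊕ (Fin m × Fin m)) K) :=
  Polynomial.C (monomial u (1:K)) *
    ((Matrix.of fun i j => Polynomial.C (rename Sum.inl (A i j)) +
      Polynomial.X * Polynomial.C (X (Sum.inr (i, j)) :
        MvPolynomial (σ ⊕ (Fin m × Fin m)) K)).submatrix r c).det

lemma fam_eval (A : Matrix (Fin m) (Fin m) (MvPolynomial σ K))
    (u : (σ ⊕ (Fin m × Fin m)) →₀ ℕ) (r c : Fin k → Fin m)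
    (t : MvPolynomial (σ ⊕ (Fin m × Fin m)) K) :
    (fam A u r c).eval t = monomial u (1:K) *
      ((Matrix.of fun i j => rename Sum.inl (A i j) + t * X (Sum.inr (i, j))).submatrix r c).det := by
  rw [fam, Polynomial.eval_mul, Polynomial.eval_C, ← Polynomial.coe_evalRingHom,
    RingHom.map_det]
  congr 2
  ext1 i j
  simp only [RingHom.mapMatrix_apply, Matrix.map_apply, Matrix.submatrix_apply, Matrix.of_apply,
    Polynomial.coe_evalRingHom, Polynomial.eval_add, Polynomial.eval_mul, Polynomial.eval_C,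
    Polynomial.eval_X]

lemma fam_eval_zero (A : Matrix (Fin m) (Fin m) (MvPolynomial σ K))
    (u : (σ ⊕ (Fin m × Fin m)) →₀ ℕ) (r c : Fin k → Fin m) :
    (fam A u r c).eval 0 = monomial u (1:K) * rename Sum.inl (A.submatrix r c).det := by
  rw [fam_eval, AlgHom.map_det]
  congr 2
  ext1 i j
  simp

/-- the substitution `X ↦ A + e X` -/
noncomputable def phi (A : Matrix (Fin m) (Fin m) (MvPolynomial σ K)) (e : K) :
    σ ⊕ (Fin m × Fin m) → MvPolynomial (σ ⊕ (Fin m × Fin m)) K
  | Sum.inl s => X (Sum.inl s)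
  | Sum.inr p => rename Sum.inl (A p.1 p.2) + C e * X (Sum.inr p)

/-- the inverse substitution -/
noncomputable def psi (A : Matrix (Fin m) (Fin m) (MvPolynomial σ K)) (e : K) :
    σ ⊕ (Fin m × Fin m) → MvPolynomial (σ ⊕ (Fin m × Fin m)) K
  | Sum.inl s => X (Sum.inl s)
  | Sum.inr p => C e⁻¹ * (X (Sum.inr p) - rename Sum.inl (A p.1 p.2))

lemma phi_rename_inl (A : Matrix (Fin m) (Fin m) (MvPolynomial σ K)) (e : K)
    (f : MvPolynomial σ K) : aeval (phi A e) (rename Sum.inl f) = rename Sum.inl f := by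
  have h : (aeval (phi A e)).comp (rename Sum.inl) = (rename Sum.inl :
      MvPolynomial σ K →ₐ[K] MvPolynomial (σ ⊕ (Fin m × Fin m)) K) := by
    apply MvPolynomial.algHom_ext
    intro s
    simp [phi]
  exact DFunLike.congr_fun h f

lemma phi_psi (A : Matrix (Fin m) (Fin m) (MvPolynomial σ K)) {e : K} (he : e ≠ 0)
    (f : MvPolynomial (σ ⊕ (Fin m × Fin m)) K) :
    aeval (phi A e) (aeval (psi A e) f) = f := by
  have h : (aeval (phi A e)).comp (aeval (psi A e)) =
      AlgHom.id K (MvPolynomial (σ ⊕ (Fin m × Fin m)) K) := by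
    apply MvPolynomial.algHom_ext
    rintro (s | p)
    · simp [psi, phi]
    · simp only [AlgHom.comp_apply, aeval_X, psi, map_mul, map_sub, AlgHom.id_apply,
        phi_rename_inl]
      rw [show aeval (phi A e) (C e⁻¹ : MvPolynomial (σ ⊕ (Fin m × Fin m)) K) = C e⁻¹ from
        by rw [aeval_C]; rfl]
      simp only [phi]
      rw [add_sub_cancel_left, ← mul_assoc, ← C_mul, inv_mul_cancel₀ he, C_1, one_mul]
  exact DFunLike.congr_fun h f

lemma psi_totalDegree (A : Matrix (Fin m) (Fin m) (MvPolynomial σ K))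
    (hA : ∀ i j, (A i j).totalDegree ≤ 1) (e : K) (x : σ ⊕ (Fin m × Fin m)) :
    (psi A e x).totalDegree ≤ 1 := by
  rcases x with s | p
  · simp only [psi]; exact (totalDegree_X _).le
  · simp only [psi]
    refine (totalDegree_mul _ _).trans ?_
    rw [totalDegree_C, zero_add]
    refine (totalDegree_sub _ _).trans (max_le (totalDegree_X _).le ?_)
    exact (totalDegree_rename_le _ _).trans (hA _ _)

/-- the minors of the generic matrix -/
lemma phi_minor (A : Matrix (Fin m) (Fin m) (MvPolynomial σ K)) (e : K) (r c : Fin k → Fin m) :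
    aeval (phi A e) ((gen K σ m).submatrix r c).det =
      ((Matrix.of fun i j => rename Sum.inl (A i j) +
        (algebraMap K (MvPolynomial (σ ⊕ (Fin m × Fin m)) K) e) *
          X (Sum.inr (i, j))).submatrix r c).det := by
  rw [AlgHom.map_det]
  congr 1
  ext1 i j
  simp [phi, gen, algebraMap_eq]

/-- index type of the spanning family -/
abbrev Idx (σ : Type) (m k l : ℕ) : Type :=
  {u : (σ ⊕ (Fin m × Fin m)) →₀ ℕ // u.degree ≤ l} ×
    {r : Fin k → Fin m // StrictMono r} × {c : Fin k → Fin m // StrictMono c}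

instance [Finite σ] : Finite (Idx σ m k l) := by
  have h1 : Finite {u : (σ ⊕ (Fin m × Fin m)) →₀ ℕ // u.degree ≤ l} :=
    (Finsupp.finite_of_degree_le (σ := σ ⊕ (Fin m × Fin m)) l).to_subtype
  infer_instance

lemma Ml_le (A : Matrix (Fin m) (Fin m) (MvPolynomial σ K)) :
    Ml A k l ≤ Submodule.span K
      (Set.range fun x : Idx σ m k l => (fam A x.1.1 x.2.1.1 x.2.2.1).eval 0) := by
  rw [Ml, Submodule.span_le]
  rintro _ ⟨μ, r, c, hμ, hr, hc, rfl⟩
  exact Submodule.subset_span ⟨(⟨μ, hμ⟩, ⟨r, hr⟩, ⟨c, hc⟩), fam_eval_zero A μ r c⟩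

lemma finite_gset [Finite σ] : Module.Finite K (Submodule.span K (gset K σ m k l)) := by
  apply Module.Finite.span_of_finite
  refine (Set.finite_range (fun x : Idx σ m k l => monomial x.1.1 (1:K) *
    ((gen K σ m).submatrix x.2.1.1 x.2.2.1).det)).subset ?_
  rintro _ ⟨u, r, c, hu, hr, hc, rfl⟩
  exact ⟨(⟨u, hu⟩, ⟨r, hr⟩, ⟨c, hc⟩), rfl⟩

theorem finrank_Ml_le [Infinite K] [Finite σ] (A : Matrix (Fin m) (Fin m) (MvPolynomial σ K))
    (hA : ∀ i j, (A i j).totalDegree ≤ 1) :
    Module.finrank K (Ml A k l) ≤ Module.finrank K (Submodule.span K (gset K σ m k l)) := by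
  classical
  obtain ⟨e, he, hle⟩ := SDet.finrank_span_le_generic (K := K)
    (fun x : Idx σ m k l => fam A x.1.1 x.2.1.1 x.2.2.1)
  set S : Submodule K (MvPolynomial (σ ⊕ (Fin m × Fin m)) K) :=
    Submodule.span K (gset K σ m k l) with hS
  have hfin : Module.Finite K S := finite_gset
  have hfin0 : Module.Finite K (Submodule.span K
      (Set.range fun x : Idx σ m k l => (fam A x.1.1 x.2.1.1 x.2.2.1).eval 0)) :=
    Module.Finite.span_of_finite K (Set.finite_range _)
  have hsub : Submodule.span K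
      (Set.range fun x : Idx σ m k l => (fam A x.1.1 x.2.1.1 x.2.2.1).eval
        (algebraMap K _ e)) ≤ S.map (aeval (phi A e)).toLinearMap := by
    rw [Submodule.span_le]
    rintro _ ⟨⟨⟨u, hu⟩, ⟨r, hr⟩, ⟨c, hc⟩⟩, rfl⟩
    simp only [SetLike.mem_coe, Submodule.mem_map]
    refine ⟨aeval (psi A e) (monomial u (1:K)) * ((gen K σ m).submatrix r c).det, ?_, ?_⟩
    · have hdeg : (aeval (psi A e) (monomial u (1:K))).totalDegree ≤ l :=
        (totalDegree_aeval_monomial_le _ (psi_totalDegree A hA e) u).trans hu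
      set w := aeval (psi A e) (monomial u (1:K)) with hw
      rw [w.as_sum, Finset.sum_mul]
      refine Submodule.sum_mem _ fun v hv => ?_
      have h1 : monomial v (coeff v w) = (coeff v w) • monomial v (1:K) := by
        rw [smul_monomial, smul_eq_mul, mul_one]
      rw [h1, smul_mul_assoc]
      exact Submodule.smul_mem _ _ (Submodule.subset_span
        ⟨v, r, c, (le_totalDegree hv).trans hdeg, hr, hc, rfl⟩)
    · rw [AlgHom.toLinearMap_apply, map_mul, phi_psi A he, phi_minor, fam_eval]
  calc Module.finrank K (Ml A k l)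
      ≤ finrank K (Submodule.span K
        (Set.range fun x : Idx σ m k l => (fam A x.1.1 x.2.1.1 x.2.2.1).eval 0)) :=
        Submodule.finrank_mono (Ml_le A)
    _ ≤ _ := hle
    _ ≤ finrank K (S.map (aeval (phi A e)).toLinearMap) := by
        have : Module.Finite K (S.map (aeval (phi A e)).toLinearMap) := inferInstance
        exact Submodule.finrank_mono hsub
    _ ≤ finrank K S := Submodule.finrank_map_le _ _

/-- SDET row U2. -/
theorem U2_affine [Infinite K] {σ : Type} [Fintype σ] {m k l : ℕ}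
    (A : Matrix (Fin m) (Fin m) (MvPolynomial σ K)) (hA : ∀ i j, (A i j).totalDegree ≤ 1) :
    Module.finrank K (Ml A k l) ≤
    Module.finrank K (Submodule.span K {f : MvPolynomial (σ ⊕ (Fin m × Fin m)) K |
      ∃ (μ : (σ ⊕ (Fin m × Fin m)) →₀ ℕ) (r c : Fin k → Fin m),
        μ.degree ≤ l ∧ StrictMono r ∧ StrictMono c ∧
        f = monomial μ 1 * ((Matrix.of fun i j => (X (Sum.inr (i, j)) :
          MvPolynomial (σ ⊕ (Fin m × Fin m)) K)).submatrix r c).det}) :=
  finrank_Ml_le A hA

end Pool.Agent.Helper41.SD
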