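import Pool.Agent.SDet.Defs
import Pool.Agent.Helper41.SDet.Wt

/-! SDET row U2 over every field (helper41). -/

open MvPolynomial Module
open Pool.SDL

namespace Pool.Agent.Helper41.SD

variable {K : Type} [Field K]

/-- the generic `m x m` matrix -/
noncomputable def gmat (K : Type) [Field K] (m : ℕ) :
    Matrix (Fin m) (Fin m) (MvPolynomial (Fin m × Fin m) K) :=
  Matrix.of fun i j => X (i, j)

/-- its minors -/
noncomputable def gminor (K : Type) [Field K] (m k : ℕ)
    (x : {r : Fin k → Fin m // StrictMono r} × {c : Fin k → Fin m // StrictMono c}) :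
    MvPolynomial (Fin m × Fin m) K :=
  ((gmat K m).submatrix x.1.1 x.2.1).det

lemma gminor_aeval {σ : Type} {m k : ℕ} (A : Matrix (Fin m) (Fin m) (MvPolynomial σ K))
    (x : {r : Fin k → Fin m // StrictMono r} × {c : Fin k → Fin m // StrictMono c}) :
    aeval (fun e : Fin m × Fin m => A e.1 e.2) (gminor K m k x) =
      (A.submatrix x.1.1 x.2.1).det := by
  rw [gminor, AlgHom.map_det]
  congr 1
  ext1 i j
  simp [gmat]

lemma gminor_rename {σ : Type} {m k : ℕ}
    (x : {r : Fin k → Fin m // StrictMono r} × {c : Fin k → Fin m // StrictMono c}) :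
    rename (Sum.inr : Fin m × Fin m → σ ⊕ (Fin m × Fin m)) (gminor K m k x) =
      ((Matrix.of fun i j => (X (Sum.inr (i, j)) :
          MvPolynomial (σ ⊕ (Fin m × Fin m)) K)).submatrix x.1.1 x.2.1).det := by
  rw [gminor, AlgHom.map_det]
  congr 1
  ext1 i j
  simp [gmat]

/-- SDET row U2, every field. -/
theorem U2_affine_any {σ : Type} [Finite σ] {m k l : ℕ}
    (A : Matrix (Fin m) (Fin m) (MvPolynomial σ K)) (hA : ∀ i j, (A i j).totalDegree ≤ 1) :
    Module.finrank K (Ml A k l) ≤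
    Module.finrank K (Submodule.span K {f : MvPolynomial (σ ⊕ (Fin m × Fin m)) K |
      ∃ (μ : (σ ⊕ (Fin m × Fin m)) →₀ ℕ) (r c : Fin k → Fin m),
        μ.degree ≤ l ∧ StrictMono r ∧ StrictMono c ∧
        f = monomial μ 1 * ((Matrix.of fun i j => (X (Sum.inr (i, j)) :
          MvPolynomial (σ ⊕ (Fin m × Fin m)) K)).submatrix r c).det}) := by
  have hdeg : ∀ μ : (σ ⊕ (Fin m × Fin m)) →₀ ℕ,
      Finsupp.weight (fun _ => 1) μ = μ.degree := by
    intro μ
    rw [Finsupp.weight_apply, Finsupp.degree_apply]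
    simp [Finsupp.sum]
  have h := finrank_mulSpan_le (K := K) (σ := σ) (E := Fin m × Fin m) (fun _ => 1)
    (fun _ => one_ne_zero) (fun e => A e.1 e.2)
    (fun e => Wle_one_of_totalDegree_le (hA e.1 e.2)) (gminor K m k) l
  have e1 : Ml A k l = mulSpan (fun _ => 1) l fun x =>
      rename (Sum.inl : σ → σ ⊕ (Fin m × Fin m))
        (aeval (fun e : Fin m × Fin m => A e.1 e.2) (gminor K m k x)) := by
    rw [Ml, mulSpan]
    congr 1
    ext f
    constructor
    · rintro ⟨μ, r, c, hμ, hr, hc, rfl⟩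
      exact ⟨μ, (⟨r, hr⟩, ⟨c, hc⟩), by rw [hdeg]; exact hμ, by rw [gminor_aeval]⟩
    · rintro ⟨μ, x, hμ, rfl⟩
      exact ⟨μ, x.1.1, x.2.1, by rw [← hdeg]; exact hμ, x.1.2, x.2.2, by rw [gminor_aeval]⟩
  have e2 : (mulSpan (fun _ => 1) l fun x =>
      rename (Sum.inr : Fin m × Fin m → σ ⊕ (Fin m × Fin m)) (gminor K m k x)) =
      Submodule.span K {f : MvPolynomial (σ ⊕ (Fin m × Fin m)) K |
      ∃ (μ : (σ ⊕ (Fin m × Fin m)) →₀ ℕ) (r c : Fin k → Fin m),
        μ.degree ≤ l ∧ StrictMono r ∧ StrictMono c ∧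
        f = monomial μ 1 * ((Matrix.of fun i j => (X (Sum.inr (i, j)) :
          MvPolynomial (σ ⊕ (Fin m × Fin m)) K)).submatrix r c).det} := by
    rw [mulSpan]
    congr 1
    ext f
    constructor
    · rintro ⟨μ, x, hμ, rfl⟩
      exact ⟨μ, x.1.1, x.2.1, by rw [← hdeg]; exact hμ, x.1.2, x.2.2, by rw [gminor_rename]⟩
    · rintro ⟨μ, r, c, hμ, hr, hc, rfl⟩
      exact ⟨μ, (⟨r, hr⟩, ⟨c, hc⟩), by rw [hdeg]; exact hμ, by rw [gminor_rename]⟩
  rw [e1, ← e2]
  exact h

end Pool.Agent.Helper41.SD
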